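import Pool.Agent.H57.UGB.Tay
import Pool.Agent.H57.UGB.Sp

/-!
# Block B, TAY: the jets of a curve, and points with non zero derivative
-/

set_option autoImplicit false

open MvPolynomial Metric Filter Topology

namespace Pool.Agent.H57.UGB

open Pool.Agent.H47.KB Pool.Agent.H47.UG

namespace Tay

/-- Taylor series -/
noncomputable def tl (g : ℂ → ℂ) (z : ℂ) : PowerSeries ℂ :=
  PowerSeries.mk fun s => iteratedDeriv s g z / s.factorial

lemma tl_congr {g h : ℂ → ℂ} {z : ℂ} (e : g =ᶠ[𝓝 z] h) : tl g z = tl h z := by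
  ext s
  simp only [tl, PowerSeries.coeff_mk]
  rw [e.iteratedDeriv_eq s]

lemma tl_const (c z : ℂ) : tl (fun _ => c) z = PowerSeries.C c := by
  ext s
  simp only [tl, PowerSeries.coeff_mk, PowerSeries.coeff_C, iteratedDeriv_const]
  by_cases h : s = 0
  · subst h
    simp
  · simp [h]

lemma tl_add {g h : ℂ → ℂ} {z : ℂ} (hg : AnalyticAt ℂ g z) (hh : AnalyticAt ℂ h z) :
    tl (fun t => g t + h t) z = tl g z + tl h z := by
  ext s
  simp only [tl, PowerSeries.coeff_mk, map_add]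
  rw [iteratedDeriv_fun_add hg.contDiffAt hh.contDiffAt, add_div]

lemma tl_mul {g h : ℂ → ℂ} {z : ℂ} (hg : AnalyticAt ℂ g z) (hh : AnalyticAt ℂ h z) :
    tl (fun t => g t * h t) z = tl g z * tl h z := by
  ext s
  rw [PowerSeries.coeff_mul]
  simp only [tl, PowerSeries.coeff_mk]
  rw [iteratedDeriv_fun_mul hg.contDiffAt hh.contDiffAt, Finset.Nat.sum_antidiagonal_eq_sum_range_succ
    (fun i j => iteratedDeriv i g z / (i.factorial : ℂ) * (iteratedDeriv j h z / (j.factorial : ℂ))) s,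
    Finset.sum_div]
  refine Finset.sum_congr rfl fun i hi => ?_
  have hi' : i ≤ s := Nat.lt_succ_iff.1 (Finset.mem_range.1 hi)
  rw [Nat.cast_choose ℂ hi']
  have h1 : (s.factorial : ℂ) ≠ 0 := by exact_mod_cast s.factorial_ne_zero
  have h2 : (i.factorial : ℂ) ≠ 0 := by exact_mod_cast i.factorial_ne_zero
  have h3 : ((s - i).factorial : ℂ) ≠ 0 := by exact_mod_cast (s - i).factorial_ne_zero
  field_simp

lemma analyticAt_eval {m : ℕ} (q : Fin m → ℂ → ℂ) (z : ℂ) (hq : ∀ j, AnalyticAt ℂ (q j) z)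
    (P : MvPolynomial (Fin m) ℂ) : AnalyticAt ℂ (fun t => eval (fun j => q j t) P) z := by
  have h : (fun t => eval (fun j => q j t) P) = fun t => aeval (fun j => q j t) P := by
    funext t
    rfl
  rw [h]
  exact AnalyticAt.aeval_mvPolynomial (f := fun t j => q j t) (z := z) hq P

lemma tl_eval {m : ℕ} (q : Fin m → ℂ → ℂ) (z : ℂ) (hq : ∀ j, AnalyticAt ℂ (q j) z)
    (P : MvPolynomial (Fin m) ℂ) :
    tl (fun t => eval (fun j => q j t) P) z = aeval (fun j => tl (q j) z) P := by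
  induction P using MvPolynomial.induction_on with
  | C a =>
    simp only [eval_C, tl_const]
    rw [aeval_C]
    rfl
  | add P Q hP hQ =>
    simp only [map_add]
    rw [tl_add (analyticAt_eval q z hq P) (analyticAt_eval q z hq Q), hP, hQ]
  | mul_X P j hP =>
    simp only [map_mul, eval_X, aeval_X]
    rw [tl_mul (analyticAt_eval q z hq P) (hq j), hP]

/-- near a point where the coordinate `i` is not zero the quotients are analytic -/
lemma near {n : ℕ} {F : Frm n} {f : ℂ → Vec n} (hf : Pool.Agent.H8.UGC.BrodyC F f) (z : ℂ)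
    (i : Fin (n + 2)) (h0 : f z i ≠ 0) :
    (∀ j, AnalyticAt ℂ (fun t => f t j / f t i) z) ∧ ∀ᶠ t in 𝓝 z, f t i ≠ 0 := by
  obtain ⟨⟨r, hr, C, hC⟩, -⟩ := hf
  obtain ⟨i0, hi⟩ := hC z
  have hz : z ∈ ball z r := mem_ball_self hr
  have hb : ball z r ∈ 𝓝 z := ball_mem_nhds z hr
  have han : ∀ j, AnalyticAt ℂ (fun t => f t j / f t i0) z := fun j =>
    (hi.hol j).analyticAt hb
  have hne : f z i / f z i0 ≠ 0 := div_ne_zero h0 (hi.ne z hz)
  have hev : ∀ᶠ t in 𝓝 z, f t i / f t i0 ≠ 0 := (han i).continuousAt.eventually_ne hne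
  have hev2 : ∀ᶠ t in 𝓝 z, f t i ≠ 0 := by
    filter_upwards [hev] with t ht h
    rw [h, zero_div] at ht
    exact ht rfl
  refine ⟨fun j => ?_, hev2⟩
  refine ((han j).div (han i) hne).congr ?_
  filter_upwards [hb, hev2] with t ht1 ht2
  have h1 := hi.ne t ht1
  simp only [Pi.div_apply]
  field_simp

lemma eval_div {n d : ℕ} {F : Frm n} (hF : F.IsHomogeneous d) (p : Vec n) (c : ℂ) :
    eval (fun j => p j / c) F = (c⁻¹) ^ d * eval p F := by
  rw [eval_eq', eval_eq', Finset.mul_sum]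
  refine Finset.sum_congr rfl fun m hm => ?_
  have hd := hF (mem_support_iff.1 hm)
  rw [Finsupp.weight_apply, Finsupp.sum_fintype _ _ (by simp)] at hd
  simp only [Pi.one_apply, smul_eq_mul, mul_one] at hd
  rw [← hd, ← Finset.prod_pow_eq_pow_sum]
  simp only [div_eq_mul_inv, mul_pow, Finset.prod_mul_distrib]
  ring

end Tay

open Tay

/-- The jets of a curve in `{F = 0}` are points of the universal space of jets. -/
theorem onT_tay (n d k : ℕ) (a : (Fin (n + 2) →₀ ℕ) → ℂ) (f : ℂ → Vec n)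
    (hf : Pool.Agent.H8.UGC.BrodyC (gen n d a) f) (z : ℂ) (i : Fin (n + 2)) (h0 : f z i ≠ 0) :
    OnT d k a (tay f i z) := by
  intro s _
  obtain ⟨h1, h2⟩ := near hf z i h0
  have h3 : tay f i z = fun j => tl (fun t => f t j / f t i) z := rfl
  rw [h3, ← tl_eval _ z h1 (gen n d a)]
  have h4 : (fun t => eval (fun j => f t j / f t i) (gen n d a)) =ᶠ[𝓝 z] fun _ => 0 :=
    Eventually.of_forall fun t => by
      show eval (fun j => f t j / f t i) (gen n d a) = 0
      rw [eval_div (gen_hom n d a), hf.2 t, mul_zero]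
  rw [tl_congr h4, tl_const, map_zero, map_zero]

namespace Tay

/-- in a chart: if the curve is constant near one point of the ball then on the whole ball -/
lemma ball_const {n : ℕ} {f : ℂ → Vec n} {r C : ℝ} {z : ℂ} {i : Fin (n + 2)}
    (hi : Pool.Agent.H8.UGC.Ch f r C z i) (v : Vec n) {w : ℂ} (hw : w ∈ ball z r)
    (h : ∀ᶠ t in 𝓝 w, ∃ c : ℂ, f t = c • v) : ∀ t ∈ ball z r, ∃ c : ℂ, f t = c • v := by
  have hvi : v i ≠ 0 := by
    intro h0
    obtain ⟨c, hc⟩ := h.self_of_nhds
    refine hi.ne w hw ?_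
    rw [hc, Pi.smul_apply, h0, smul_zero]
  have key : ∀ j, ∀ t ∈ ball z r, f t j / f t i = v j / v i := by
    intro j
    have h1 : AnalyticOnNhd ℂ (fun t => f t j / f t i) (ball z r) :=
      (hi.hol j).analyticOnNhd isOpen_ball
    have h2 : AnalyticOnNhd ℂ (fun _ : ℂ => v j / v i) (ball z r) := fun _ _ => analyticAt_const
    have h3 := h1.eqOn_of_preconnected_of_eventuallyEq h2 (convex_ball z r).isPreconnected hw ?_
    · exact h3
    · filter_upwards [h, isOpen_ball.mem_nhds hw] with t ⟨c, hc⟩ ht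
      have h4 := hi.ne t ht
      rw [hc] at h4 ⊢
      simp only [Pi.smul_apply, smul_eq_mul] at h4 ⊢
      exact mul_div_mul_left _ _ (left_ne_zero_of_mul h4)
  intro t ht
  refine ⟨f t i / v i, ?_⟩
  funext j
  have h1 := key j t ht
  have h2 := hi.ne t ht
  rw [Pi.smul_apply, smul_eq_mul]
  rw [div_eq_div_iff h2 hvi] at h1
  field_simp
  linear_combination h1

/-- a Brody curve which is constant near a point is constant -/
lemma isConst_of_eventually {n : ℕ} {F : Frm n} {f : ℂ → Vec n}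
    (hf : Pool.Agent.H8.UGC.BrodyC F f) (v : Vec n) {w : ℂ}
    (h : ∀ᶠ t in 𝓝 w, ∃ c : ℂ, f t = c • v) : IsConst f := by
  obtain ⟨⟨r, hr, C, hC⟩, -⟩ := hf
  have hS : {z : ℂ | ∀ᶠ t in 𝓝 z, ∃ c : ℂ, f t = c • v} = Set.univ := by
    have hstep : ∀ z w : ℂ, dist z w < r → (∀ᶠ t in 𝓝 z, ∃ c : ℂ, f t = c • v) →
        ∀ᶠ t in 𝓝 w, ∃ c : ℂ, f t = c • v := by
      intro z w hzw hz
      obtain ⟨i, hi⟩ := hC w
      have h1 := ball_const hi v (mem_ball.2 hzw) hz
      filter_upwards [ball_mem_nhds w hr] with t ht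
      exact h1 t ht
    have hopen : IsOpen {z : ℂ | ∀ᶠ t in 𝓝 z, ∃ c : ℂ, f t = c • v} := by
      rw [Metric.isOpen_iff]
      intro z hz
      exact ⟨r, hr, fun w hw => hstep z w (by rw [dist_comm]; exact mem_ball.1 hw) hz⟩
    have hclosed : IsClosed {z : ℂ | ∀ᶠ t in 𝓝 z, ∃ c : ℂ, f t = c • v} := by
      rw [← isOpen_compl_iff, Metric.isOpen_iff]
      intro z hz
      refine ⟨r, hr, fun w hw hw2 => hz ?_⟩
      exact hstep w z (mem_ball.1 hw) hw2
    exact IsClopen.eq_univ ⟨hclosed, hopen⟩ ⟨w, h⟩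
  have hall : ∀ z, ∃ c : ℂ, f z = c • v := by
    intro z
    have hz : z ∈ {z : ℂ | ∀ᶠ t in 𝓝 z, ∃ c : ℂ, f t = c • v} := by rw [hS]; trivial
    have hz' : ∀ᶠ t in 𝓝 z, ∃ c : ℂ, f t = c • v := hz
    exact hz'.self_of_nhds
  obtain ⟨c0, hc0⟩ := hall 0
  have hc0' : c0 ≠ 0 := by
    rintro rfl
    obtain ⟨i, hi⟩ := hC 0
    refine hi.ne 0 (mem_ball_self hr) ?_
    rw [hc0, zero_smul]
    rfl
  intro z
  obtain ⟨c, hc⟩ := hall z
  refine ⟨c * c0⁻¹, ?_⟩
  rw [hc, hc0, smul_smul, mul_assoc, inv_mul_cancel₀ hc0', mul_one]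

lemma hasDerivAt_eval {m : ℕ} (q : Fin m → ℂ → ℂ) (z : ℂ) (hq : ∀ j, DifferentiableAt ℂ (q j) z)
    (P : MvPolynomial (Fin m) ℂ) : HasDerivAt (fun t => eval (fun j => q j t) P)
      (∑ j, eval (fun j => q j z) (pderiv j P) * deriv (q j) z) z := by
  classical
  induction P using MvPolynomial.induction_on with
  | C a =>
    simp only [eval_C, pderiv_C, map_zero, zero_mul, Finset.sum_const_zero]
    exact hasDerivAt_const z a
  | add P Q hP hQ =>
    have h := hP.add hQ
    simp only [map_add, add_mul, Finset.sum_add_distrib]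
    exact h
  | mul_X P i hP =>
    have h := hP.mul (hq i).hasDerivAt
    simp only [map_mul, eval_X]
    have e : ∀ j, eval (fun j => q j z) (pderiv j (P * X i)) =
        (if j = i then eval (fun j => q j z) P else 0) + q i z * eval (fun j => q j z) (pderiv j P) := by
      intro j
      rw [Derivation.leibniz, pderiv_X, smul_eq_mul, smul_eq_mul, map_add, map_mul, map_mul, eval_X]
      by_cases hj : j = i
      · subst hj
        simp
      · simp [hj]
    refine h.congr_deriv ?_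
    simp only [e, add_mul, Finset.sum_add_distrib, ite_mul, zero_mul, Finset.sum_ite_eq',
      Finset.mem_univ, if_true, Finset.sum_mul]
    rw [add_comm]
    congr 1
    exact Finset.sum_congr rfl fun j _ => by ring

end Tay

/-- The points with non zero derivative of one of the coordinates `x_1, .., x_n` are dense: a continuous
function (in a chart) vanishing there vanishes. -/
theorem dense_pts (n d : ℕ) (F : Frm n) (hF : F.IsHomogeneous d) (f : ℂ → Vec n)
    (hf : Pool.Agent.H8.UGC.BrodyC F f) (hnc : ¬ IsConst f) (Q : Frm n) (M : ℕ)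
    (hQ : Q.IsHomogeneous M)
    (h : ∀ z, f z 0 ≠ 0 → eval (f z) (pderiv (Fin.last (n + 1)) F) ≠ 0 →
      (∃ l : Fin n, PowerSeries.coeff 1 (tay f 0 z l.succ.castSucc) ≠ 0) → eval (f z) Q = 0) :
    ∀ z, f z 0 ≠ 0 → eval (f z) (pderiv (Fin.last (n + 1)) F) ≠ 0 → eval (f z) Q = 0 := by
  intro z0 h0 h1
  by_contra h2
  have hF' : (pderiv (Fin.last (n + 1)) F).IsHomogeneous (d - 1) := hF.pderiv
  obtain ⟨ha, hne⟩ := near hf z0 0 h0
  have hev : ∀ (P : Frm n) (e : ℕ), P.IsHomogeneous e → eval (f z0) P ≠ 0 →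
      ∀ᶠ t in 𝓝 z0, eval (f t) P ≠ 0 := by
    intro P e hP hP0
    have h3 : ContinuousAt (fun t => eval (fun j => f t j / f t 0) P) z0 :=
      (analyticAt_eval _ z0 ha P).continuousAt
    have h4 : (fun t => eval (fun j => f t j / f t 0) P) z0 ≠ 0 := by
      show eval (fun j => f z0 j / f z0 0) P ≠ 0
      rw [eval_div hP]
      exact mul_ne_zero (pow_ne_zero _ (inv_ne_zero h0)) hP0
    filter_upwards [h3.eventually_ne h4] with t ht h5
    refine ht ?_
    show eval (fun j => f t j / f t 0) P = 0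
    rw [eval_div hP, h5, mul_zero]
  obtain ⟨ρ, hρ, hball⟩ := Metric.eventually_nhds_iff_ball.1
    (hne.and ((hev _ _ hF' h1).and (hev _ _ hQ h2)))
  have hd : ∀ t ∈ ball z0 ρ, ∀ j, AnalyticAt ℂ (fun t => f t j / f t 0) t := fun t ht =>
    (near hf t 0 (hball t ht).1).1
  have hl : ∀ t ∈ ball z0 ρ, ∀ l : Fin n, deriv (fun t => f t l.succ.castSucc / f t 0) t = 0 := by
    intro t ht l
    by_contra h3
    refine (hball t ht).2.2 (h t (hball t ht).1 (hball t ht).2.1 ⟨l, ?_⟩)
    unfold tay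
    rw [PowerSeries.coeff_mk, iteratedDeriv_one]
    simpa using h3
  have hz : ∀ t ∈ ball z0 ρ, deriv (fun t => f t 0 / f t 0) t = 0 := by
    intro t ht
    have h3 : (fun t => f t 0 / f t 0) =ᶠ[𝓝 t] fun _ => 1 := by
      filter_upwards [isOpen_ball.mem_nhds ht] with w hw
      exact div_self (hball w hw).1
    rw [h3.deriv_eq, deriv_const]
  have hlast : ∀ t ∈ ball z0 ρ, deriv (fun t => f t (Fin.last (n + 1)) / f t 0) t = 0 := by
    intro t ht
    have h3 := hasDerivAt_eval (fun j t => f t j / f t 0) t (fun j => (hd t ht j).differentiableAt) F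
    have h4 : (fun t => eval (fun j => f t j / f t 0) F) = fun _ => 0 := by
      funext w
      rw [eval_div hF, hf.2 w, mul_zero]
    rw [h4] at h3
    have h5 := h3.unique (hasDerivAt_const t (0 : ℂ))
    rw [Fin.sum_univ_castSucc, Fin.sum_univ_succ] at h5
    have h6 : (0 : Fin (n + 1)).castSucc = (0 : Fin (n + 2)) := rfl
    rw [h6, hz t ht, mul_zero, zero_add, Finset.sum_eq_zero (fun l _ => by rw [hl t ht l, mul_zero]),
      zero_add] at h5
    refine (mul_eq_zero.1 h5).resolve_left ?_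
    rw [eval_div hF']
    exact mul_ne_zero (pow_ne_zero _ (inv_ne_zero (hball t ht).1)) (hball t ht).2.1
  have hall : ∀ j, ∀ t ∈ ball z0 ρ, deriv (fun t => f t j / f t 0) t = 0 := by
    intro j t ht
    refine Fin.lastCases (hlast t ht) (fun j' => ?_) j
    refine Fin.cases (hz t ht) (fun l => hl t ht l) j'
  refine hnc (isConst_of_eventually hf (f z0) (w := z0) ?_)
  filter_upwards [ball_mem_nhds z0 hρ] with t ht
  refine ⟨f t 0 / f z0 0, ?_⟩
  funext j
  have h3 : f t j / f t 0 = f z0 j / f z0 0 :=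
    isOpen_ball.is_const_of_deriv_eq_zero (convex_ball z0 ρ).isPreconnected
      (fun w hw => (hd w hw j).differentiableAt.differentiableWithinAt) (fun w hw => hall j w hw)
      ht (mem_ball_self hρ)
  have h4 := (hball t ht).1
  rw [Pi.smul_apply, smul_eq_mul]
  rw [div_eq_div_iff h4 h0] at h3
  field_simp
  linear_combination h3

end Pool.Agent.H57.UGB
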